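import Mathlib

set_option autoImplicit false
open Set Filter Topology

namespace Pool.Agent.Results.MP_d93447_an.Counter

theorem d2 (t : ℝ) : HasDerivAt (fun t : ℝ => max t 0 ^ 2) (2 * max t 0) t := by
  rcases lt_trichotomy t 0 with h | rfl | h
  · rw [max_eq_right h.le, mul_zero]
    refine (hasDerivAt_const t (0 : ℝ)).congr_of_eventuallyEq ?_
    filter_upwards [gt_mem_nhds h] with s hs
    simp [max_eq_right hs.le]
  · rw [hasDerivAt_iff_isLittleO_nhds_zero]
    refine Asymptotics.IsBigO.trans_isLittleO (g := fun h : ℝ => h ^ 2) ?_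
      (Asymptotics.isLittleO_pow_id one_lt_two)
    refine Asymptotics.IsBigO.of_bound' (Eventually.of_forall fun s => ?_)
    rcases le_total s 0 with h | h <;> simp [h, sq_nonneg]
  · rw [max_eq_left h.le]
    have : HasDerivAt (fun t : ℝ => t ^ 2) (2 * t) t := by simpa using hasDerivAt_pow 2 t
    refine this.congr_of_eventuallyEq ?_
    filter_upwards [lt_mem_nhds h] with s hs
    simp [max_eq_left hs.le]

theorem d3 (t : ℝ) : HasDerivAt (fun t : ℝ => max t 0 ^ 3) (3 * max t 0 ^ 2) t := by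
  have e : (fun t : ℝ => max t 0 ^ 3) = fun t => t * max t 0 ^ 2 := by
    funext s
    rcases le_total s 0 with h | h <;> simp [h]
    ring
  rw [e]
  refine ((hasDerivAt_id t).mul (d2 t)).congr_deriv ?_
  rcases le_total t 0 with h | h <;> simp [h]
  ring

noncomputable def P0 (u : ℝ) : ℝ := max (1 - u ^ 2) 0 ^ 3
noncomputable def P1 (u : ℝ) : ℝ := -6 * u * max (1 - u ^ 2) 0 ^ 2
noncomputable def P2 (u : ℝ) : ℝ := -6 * max (1 - u ^ 2) 0 ^ 2 + 24 * u ^ 2 * max (1 - u ^ 2) 0

theorem dq (u : ℝ) : HasDerivAt (fun u : ℝ => 1 - u ^ 2) (-2 * u) u := by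
  simpa using (hasDerivAt_pow 2 u).const_sub 1

theorem dP0 (u : ℝ) : HasDerivAt P0 (P1 u) u :=
  ((d3 _).comp u (dq u)).congr_deriv (by unfold P1; ring)

theorem dP1 (u : ℝ) : HasDerivAt P1 (P2 u) u :=
  (((hasDerivAt_id u).const_mul (-6)).mul ((d2 _).comp u (dq u))).congr_deriv
    (by unfold P2; simp; ring)

theorem out {u : ℝ} (h : 1 ≤ |u|) : max (1 - u ^ 2) 0 = 0 :=
  max_eq_right (by rw [← sq_abs]; nlinarith)

theorem mx (u : ℝ) : 0 ≤ max (1 - u ^ 2) 0 ∧ max (1 - u ^ 2) 0 ≤ 1 :=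
  ⟨le_max_right _ _, max_le (by nlinarith) zero_le_one⟩

section
variable (m : ℕ)

noncomputable def w : ℝ := 1 / (100 * ((m : ℝ) + 1) ^ 2)
noncomputable def c (k : ℕ) : ℝ := (k + 1 / 2) / ((m : ℝ) + 1)
noncomputable def y0 (x : ℝ) : ℝ := x ^ 2 / 2 + ∑ k ∈ Finset.range m, w m * P0 ((x - c m k) / w m)
noncomputable def y1 (x : ℝ) : ℝ := x + ∑ k ∈ Finset.range m, P1 ((x - c m k) / w m)
noncomputable def y2 (x : ℝ) : ℝ := 1 + ∑ k ∈ Finset.range m, P2 ((x - c m k) / w m) / w m

theorem w_pos : 0 < w m := by unfold w; positivity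

theorem w_le : w m * (100 * ((m : ℝ) + 1) ^ 2) = 1 := by unfold w; field_simp

theorem w_le2 : w m * (100 * ((m : ℝ) + 1)) ≤ 1 := by
  have := w_le m
  have := w_pos m
  have : (0 : ℝ) ≤ m := m.cast_nonneg
  nlinarith [mul_nonneg (mul_nonneg (w_pos m).le this) (by linarith : 0 ≤ (m : ℝ) + 1)]

theorem dlin (k : ℕ) (x : ℝ) : HasDerivAt (fun x => (x - c m k) / w m) (1 / w m) x :=
  ((hasDerivAt_id x).sub_const _).div_const _

theorem dy0 (x : ℝ) : HasDerivAt (y0 m) (y1 m x) x := by
  have := ((hasDerivAt_pow 2 x).div_const 2).add (HasDerivAt.fun_sum (u := Finset.range m)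
    fun k _ => (((dP0 _).comp x (dlin m k x)).const_mul (w m)))
  refine this.congr_deriv ?_
  have := (w_pos m).ne'
  unfold y1
  congr 1
  · simp
  · exact Finset.sum_congr rfl fun k _ => by field_simp

theorem dy1 (x : ℝ) : HasDerivAt (y1 m) (y2 m x) x := by
  have := (hasDerivAt_id x).add (HasDerivAt.fun_sum (u := Finset.range m)
    fun k _ => ((dP1 _).comp x (dlin m k x)))
  refine this.congr_deriv ?_
  unfold y2
  congr 1
  exact Finset.sum_congr rfl fun k _ => by ring

theorem cy2 : Continuous (y2 m) := by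
  unfold y2 P2
  fun_prop

/-- two points of different bumps are far apart -/
theorem far {j k : ℕ} (h : j < k) {x z : ℝ} (hx : |(x - c m j) / w m| ≤ 1)
    (hz : |(z - c m k) / w m| ≤ 1) : 0.98 ≤ (z - x) * (m + 1) := by
  have hw := w_pos m
  rw [abs_div, abs_of_pos hw, div_le_one hw, abs_le] at hx hz
  have h1 : (c m k - c m j) * (m + 1) = k - j := by unfold c; field_simp; ring
  have h2 : (j : ℝ) + 1 ≤ k := by exact_mod_cast h
  have := w_le2 m
  have h3 : (0 : ℝ) < m + 1 := by positivity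
  nlinarith [mul_le_mul_of_nonneg_right hx.2 h3.le, mul_le_mul_of_nonneg_right hz.1 h3.le]

theorem single (g : ℝ → ℝ) (hg : ∀ u, 1 ≤ |u| → g u = 0) (x : ℝ) (k : ℕ) (hk : k < m)
    (hx : |(x - c m k) / w m| ≤ 1) :
    ∑ j ∈ Finset.range m, g ((x - c m j) / w m) = g ((x - c m k) / w m) := by
  refine Finset.sum_eq_single k (fun j _ hj => hg _ (le_of_not_ge fun h => ?_))
    fun h => absurd (Finset.mem_range.mpr hk) h
  rcases lt_or_gt_of_ne hj with q | q
  · have := far m q h hx; norm_num at this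
  · have := far m q hx h; norm_num at this

theorem sum_bd (g : ℝ → ℝ) (B : ℝ) (hB : 0 ≤ B) (hg : ∀ u, 1 ≤ |u| → g u = 0)
    (hb : ∀ u, |u| ≤ 1 → |g u| ≤ B) (x : ℝ) : |∑ j ∈ Finset.range m, g ((x - c m j) / w m)| ≤ B := by
  by_cases h : ∃ k < m, |(x - c m k) / w m| ≤ 1
  · obtain ⟨k, hk, hx⟩ := h
    rw [single m g hg x k hk hx]
    exact hb _ hx
  · push Not at h
    rw [Finset.sum_eq_zero fun j hj => hg _ (h j (Finset.mem_range.mp hj)).le]
    simpa using hB

theorem y0_near (x : ℝ) : |y0 m x - x ^ 2 / 2| ≤ w m := by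
  have := sum_bd m (fun u => w m * P0 u) (w m) (w_pos m).le (fun u h => by simp [P0, out h])
    (fun u _ => by
      have h1 := mx u
      rw [abs_mul, abs_of_pos (w_pos m), P0, abs_of_nonneg (pow_nonneg h1.1 3)]
      exact mul_le_of_le_one_right (w_pos m).le (pow_le_one₀ h1.1 h1.2)) x
  simpa [y0] using this

theorem y1_near (x : ℝ) : |y1 m x - x| ≤ 6 := by
  have := sum_bd m P1 6 (by norm_num) (fun u h => by simp [P1, out h])
    (fun u h => by
      have h1 := mx u
      rw [P1, abs_mul, abs_mul, abs_of_nonneg (pow_nonneg h1.1 2)]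
      have := pow_le_one₀ (n := 2) h1.1 h1.2
      norm_num
      nlinarith [abs_nonneg u, pow_nonneg h1.1 2]) x
  simpa [y1] using this

theorem curv (k : ℕ) (hk : k ≤ m) : (k : ℝ) ≤ ∫ x in (0 : ℝ)..(c m k), |y2 m x| := by
  have hi : ∀ a b, IntervalIntegrable (fun x => |y2 m x|) MeasureTheory.volume a b :=
    fun a b => (cy2 m).abs.intervalIntegrable a b
  have hw := w_pos m
  have hw2 := w_le2 m
  have hm : (0 : ℝ) < m + 1 := by positivity
  induction k with
  | zero =>
    simpa using intervalIntegral.integral_nonneg (by unfold c; positivity) fun _ _ => abs_nonneg _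
  | succ k ih =>
    have h1 := ih (by omega)
    have hc : c m k + w m / 2 ≤ c m (k + 1) := by
      have : c m (k + 1) - c m k = 1 / (m + 1) := by unfold c; push_cast; field_simp; ring
      have h2 : w m / 2 ≤ 1 / (m + 1) := by rw [le_div_iff₀ hm]; nlinarith
      linarith
    rw [← intervalIntegral.integral_add_adjacent_intervals (hi 0 (c m k)) (hi _ _),
      ← intervalIntegral.integral_add_adjacent_intervals (hi (c m k) (c m k + w m / 2)) (hi _ _)]
    have h2 : 0 ≤ ∫ x in (c m k + w m / 2)..(c m (k + 1)), |y2 m x| :=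
      intervalIntegral.integral_nonneg hc fun _ _ => abs_nonneg _
    have h3 := intervalIntegral.abs_integral_le_integral_abs (μ := MeasureTheory.volume)
      (f := y2 m) (show c m k ≤ c m k + w m / 2 by linarith)
    rw [intervalIntegral.integral_eq_sub_of_hasDerivAt (fun x _ => dy1 m x)
      ((cy2 m).intervalIntegrable _ _)] at h3
    have e0 : (c m k - c m k) / w m = 0 := by simp
    have e1 : (c m k + w m / 2 - c m k) / w m = 1 / 2 := by field_simp; ring
    have s0 := single m P1 (fun u h => by simp [P1, out h]) (c m k) k (by omega) (by simp)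
    have s1 := single m P1 (fun u h => by simp [P1, out h]) (c m k + w m / 2) k (by omega)
      (by rw [e1]; norm_num [abs_of_pos])
    rw [y1, y1, s0, s1, e0, e1] at h3
    norm_num [P1] at h3
    have h4 := neg_le_abs (c m k + w m / 2 + -(27 / 16) - c m k)
    have : w m ≤ 1 := by nlinarith
    push_cast
    norm_num at h4
    linarith

theorem roots (p : Polynomial ℝ) (n : ℕ) (hp : p.natDegree ≤ n) (h0 : p.coeff n ≠ 0) (S : Set ℝ)
    (hS : ∀ x ∈ S, p.eval x = 0) : S.encard ≤ n := by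
  have hne : p ≠ 0 := fun h => h0 (by simp [h])
  calc S.encard ≤ (p.roots.toFinset : Set ℝ).encard :=
        encard_le_encard fun x hx => by simp [hne, hS x hx]
    _ ≤ n := by
        rw [encard_coe_eq_coe_finsetCard]
        exact_mod_cast (Multiset.toFinset_card_le _).trans ((Polynomial.card_roots' p).trans hp)

theorem three (a b : ℝ) {i j k : ℕ} (hij : i < j) (hjk : j < k) {x y z : ℝ}
    (hx : |(x - c m i) / w m| ≤ 1) (hy : |(y - c m j) / w m| ≤ 1) (hz : |(z - c m k) / w m| ≤ 1)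
    (ex : y0 m x = a + b * x) (ey : y0 m y = a + b * y) (ez : y0 m z = a + b * z) : False := by
  have f1 := far m hij hx hy
  have f2 := far m hjk hy hz
  have n1 := abs_le.mp (y0_near m x)
  have n2 := abs_le.mp (y0_near m y)
  have n3 := abs_le.mp (y0_near m z)
  rw [ex] at n1; rw [ey] at n2; rw [ez] at n3
  have hm : (0 : ℝ) < m + 1 := by positivity
  have p1 : 0 < y - x := by by_contra h; nlinarith
  have p2 : 0 < z - y := by by_contra h; nlinarith
  have key : (y - x) * (z - y) * (z - x) / 2 ≤ 2 * w m * (z - x) := by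
    nlinarith [mul_le_mul_of_nonneg_left n1.1 p2.le, mul_le_mul_of_nonneg_left n3.1 p1.le,
      mul_le_mul_of_nonneg_left n2.2 (add_pos p1 p2).le]
  have k2 : (y - x) * (z - y) ≤ 4 * w m := by
    by_contra h
    nlinarith [mul_pos (sub_pos.mpr (not_le.mp h)) (add_pos p1 p2)]
  have k3 := mul_le_mul f1 f2 (by norm_num) (by nlinarith)
  have k4 := mul_le_mul_of_nonneg_right k2 (sq_nonneg ((m : ℝ) + 1))
  nlinarith [w_le m]

theorem count (a b : ℝ) : {x | y0 m x = a + b * x}.encard ≤ 14 := by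
  classical
  let Z : ℕ → Set ℝ := fun k => {x | k < m ∧ |(x - c m k) / w m| ≤ 1 ∧ y0 m x = a + b * x}
  have hZ : ∀ k, (Z k).encard ≤ 6 := by
    intro k
    have hw := (w_pos m).ne'
    refine le_trans (le_of_eq ((Function.Injective.encard_image
      (f := fun x => (x - c m k) / w m) (fun x y h => by simpa [hw] using h) _).symm)) ?_
    refine roots (Polynomial.C (w m) * (1 - Polynomial.X ^ 2) ^ 3 + (Polynomial.C (w m ^ 2 / 2) *
      Polynomial.X ^ 2 + Polynomial.C (w m * (c m k - b)) * Polynomial.X +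
      Polynomial.C (c m k ^ 2 / 2 - a - b * c m k))) 6 (by compute_degree) ?_ _ ?_
    · have : (1 - Polynomial.X ^ 2 : Polynomial ℝ) ^ 3 = 1 - 3 * Polynomial.X ^ 2 +
          3 * Polynomial.X ^ 4 - Polynomial.X ^ 6 := by ring
      rw [this]
      simp [Polynomial.coeff_one, Polynomial.coeff_X, Polynomial.coeff_C, hw, -map_mul, -map_sub]
    · rintro _ ⟨x, ⟨h1, h2, h3⟩, rfl⟩
      rw [y0, single m (fun u => w m * P0 u) (fun u h => by simp [P0, out h]) x k h1 h2, P0,
        max_eq_left (by rw [← sq_abs]; nlinarith [abs_nonneg ((x - c m k) / w m)])] at h3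
      have e : x = c m k + w m * ((x - c m k) / w m) := by field_simp; ring
      simp only [Polynomial.eval_add, Polynomial.eval_mul, Polynomial.eval_C, Polynomial.eval_pow,
        Polynomial.eval_sub, Polynomial.eval_one, Polynomial.eval_X]
      generalize (x - c m k) / w m = u at *
      rw [e] at h3
      linear_combination h3
  let Z0 : Set ℝ := {x | x ^ 2 / 2 = a + b * x}
  have hZ0 : Z0.encard ≤ 2 := by
    refine roots (Polynomial.C (1 / 2) * Polynomial.X ^ 2 + Polynomial.C (-b) * Polynomial.X +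
      Polynomial.C (-a)) 2 (by compute_degree)
      (by simp [Polynomial.coeff_X, Polynomial.coeff_C, -map_neg]) _ fun x hx => ?_
    have : x ^ 2 / 2 = a + b * x := hx
    simp
    linarith
  obtain ⟨i, k, hik⟩ : ∃ i k, ∀ j, (Z j).Nonempty → j = i ∨ j = k := by
    by_cases h : ∃ j, (Z j).Nonempty
    · have hb : BddAbove {j | (Z j).Nonempty} := ⟨m, fun j ⟨_, hj⟩ => hj.1.le⟩
      refine ⟨sInf {j | (Z j).Nonempty}, sSup {j | (Z j).Nonempty}, fun j hj => ?_⟩
      by_contra hn
      push Not at hn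
      obtain ⟨x, hx⟩ := Nat.sInf_mem h
      obtain ⟨z, hz⟩ := Nat.sSup_mem h hb
      obtain ⟨y, hy⟩ := id hj
      exact three m a b (lt_of_le_of_ne (Nat.sInf_le hj) hn.1.symm)
        (lt_of_le_of_ne (le_csSup hb hj) hn.2) hx.2.1 hy.2.1 hz.2.1 hx.2.2 hy.2.2 hz.2.2
    · exact ⟨0, 0, fun j hj => absurd ⟨j, hj⟩ h⟩
  have hsub : {x | y0 m x = a + b * x} ⊆ Z0 ∪ (Z i ∪ Z k) := by
    intro x hx
    by_cases h : ∃ k < m, |(x - c m k) / w m| ≤ 1
    · obtain ⟨j, hj, hj2⟩ := h
      have : x ∈ Z j := ⟨hj, hj2, hx⟩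
      rcases hik j ⟨x, this⟩ with rfl | rfl
      · exact Or.inr (Or.inl this)
      · exact Or.inr (Or.inr this)
    · push Not at h
      left
      have hx : y0 m x = a + b * x := hx
      rw [y0, Finset.sum_eq_zero fun j hj => by
        simp [P0, out (h j (Finset.mem_range.mp hj)).le], add_zero] at hx
      exact hx
  calc _ ≤ _ := encard_le_encard hsub
    _ ≤ Z0.encard + ((Z i).encard + (Z k).encard) :=
      (encard_union_le _ _).trans (add_le_add le_rfl (encard_union_le _ _))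
    _ ≤ 2 + (6 + 6) := add_le_add hZ0 (add_le_add (hZ i) (hZ k))
    _ = 14 := by norm_num

end

theorem result (K : ℝ) : ∃ y : ℝ → ℝ, ContDiff ℝ 2 y ∧
    (∀ x ∈ Icc (0 : ℝ) 1, |y x| ≤ 7 ∧ |deriv y x| ≤ 7) ∧
    K ≤ ∫ x in (0 : ℝ)..1, |deriv (deriv y) x| ∧
    ∀ a b : ℝ, {x ∈ Icc (0 : ℝ) 1 | y x = a + b * x}.encard ≤ 14 := by
  obtain ⟨m, hm⟩ := exists_nat_ge K
  have e1 : deriv (y0 m) = y1 m := funext fun x => (dy0 m x).deriv
  have e2 : deriv (y1 m) = y2 m := funext fun x => (dy1 m x).deriv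
  refine ⟨y0 m, ?_, fun x hx => ⟨?_, ?_⟩, ?_, fun a b =>
    (encard_le_encard fun x hx => hx.2).trans (count m a b)⟩
  · rw [show (2 : WithTop ℕ∞) = 1 + 1 from rfl, contDiff_succ_iff_deriv, e1, contDiff_one_iff_deriv, e2]
    exact ⟨fun x => (dy0 m x).differentiableAt, by simp, fun x => (dy1 m x).differentiableAt, cy2 m⟩
  · have := abs_le.mp (y0_near m x)
    have h2 := w_le2 m
    have h3 : w m ≤ 1 := by nlinarith [w_pos m, (m.cast_nonneg : (0 : ℝ) ≤ m)]
    rw [abs_le]
    constructor <;> nlinarith [hx.1, hx.2]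
  · have := abs_le.mp (y1_near m x)
    rw [e1, abs_le]
    constructor <;> linarith [hx.1, hx.2]
  · rw [e1, e2]
    have hi : ∀ a b, IntervalIntegrable (fun x => |y2 m x|) MeasureTheory.volume a b :=
      fun a b => (cy2 m).abs.intervalIntegrable a b
    rw [← intervalIntegral.integral_add_adjacent_intervals (hi 0 (c m m)) (hi _ _)]
    have h2 : 0 ≤ ∫ x in (c m m)..1, |y2 m x| :=
      intervalIntegral.integral_nonneg (by
        unfold c; rw [div_le_one (by positivity)]; linarith) fun _ _ => abs_nonneg _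
    linarith [curv m m le_rfl]

end Pool.Agent.Results.MP_d93447_an.Counter
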